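import Pool.Agent.helper5.BEY.SpecA

/-!
# BEY, row IBP: integration by parts
-/

set_option autoImplicit false

open Complex MeasureTheory

namespace Pool.Agent.BEY

theorem IBP_norm (x : ℝ) : ‖Complex.exp (((x : ℝ) : ℂ) * I)‖ = 1 := Complex.norm_exp_ofReal_mul_I x

theorem IBP : IBP_stmt := by
  intro p q b b' θ θ' hpq hb hθ hb' hθ'
  have hu : Set.uIcc p q = Set.Icc p q := Set.uIcc_of_le hpq
  have cb : ContinuousOn b (Set.Icc p q) := fun y hy => (hb y hy).continuousAt.continuousWithinAt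
  have cθ : ContinuousOn θ (Set.Icc p q) := fun y hy => (hθ y hy).continuousAt.continuousWithinAt
  have cE : ContinuousOn (fun y => Complex.exp (((θ y : ℝ) : ℂ) * I)) (Set.Icc p q) :=
    ((Complex.continuous_ofReal.comp_continuousOn cθ).mul continuousOn_const).cexp
  have c1 : ContinuousOn (fun y => ((b' y : ℝ) : ℂ) * Complex.exp (((θ y : ℝ) : ℂ) * I)) (Set.uIcc p q) := by
    rw [hu]
    exact (Complex.continuous_ofReal.comp_continuousOn hb').mul cE
  have c2 : ContinuousOn (fun y => ((b y * θ' y : ℝ) : ℂ) * Complex.exp (((θ y : ℝ) : ℂ) * I)) (Set.uIcc p q) := by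
    rw [hu]
    exact (Complex.continuous_ofReal.comp_continuousOn (cb.mul hθ')).mul cE
  have i1 := c1.intervalIntegrable (μ := volume)
  have i2 := c2.intervalIntegrable (μ := volume)
  have hder : ∀ y ∈ Set.uIcc p q, HasDerivAt (fun y => ((b y : ℝ) : ℂ) * Complex.exp (((θ y : ℝ) : ℂ) * I))
      (((b' y : ℝ) : ℂ) * Complex.exp (((θ y : ℝ) : ℂ) * I) +
        I * (((b y * θ' y : ℝ) : ℂ) * Complex.exp (((θ y : ℝ) : ℂ) * I))) y := by
    intro y hy
    rw [hu] at hy
    have e1 := (hb y hy).ofReal_comp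
    have e2 := (((hθ y hy).ofReal_comp).mul_const I).cexp
    refine (e1.mul e2).congr_deriv ?_
    push_cast
    ring
  have hint : IntervalIntegrable (fun y => ((b' y : ℝ) : ℂ) * Complex.exp (((θ y : ℝ) : ℂ) * I) +
        I * (((b y * θ' y : ℝ) : ℂ) * Complex.exp (((θ y : ℝ) : ℂ) * I))) volume p q := i1.add (i2.const_mul I)
  have h := intervalIntegral.integral_eq_sub_of_hasDerivAt hder hint
  rw [intervalIntegral.integral_add i1 (i2.const_mul I), intervalIntegral.integral_const_mul] at h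
  have h1 : ‖∫ y in p..q, ((b' y : ℝ) : ℂ) * Complex.exp (((θ y : ℝ) : ℂ) * I)‖ ≤ ∫ y in p..q, |b' y| := by
    refine (intervalIntegral.norm_integral_le_integral_norm hpq).trans (le_of_eq ?_)
    refine intervalIntegral.integral_congr fun y _ => ?_
    show ‖((b' y : ℝ) : ℂ) * Complex.exp (((θ y : ℝ) : ℂ) * I)‖ = |b' y|
    rw [norm_mul, IBP_norm, mul_one, Complex.norm_real, Real.norm_eq_abs]
  have h2 : ‖∫ y in p..q, ((b y * θ' y : ℝ) : ℂ) * Complex.exp (((θ y : ℝ) : ℂ) * I)‖ =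
      ‖I * ∫ y in p..q, ((b y * θ' y : ℝ) : ℂ) * Complex.exp (((θ y : ℝ) : ℂ) * I)‖ := by
    rw [norm_mul, Complex.norm_I, one_mul]
  have h3 : I * ∫ y in p..q, ((b y * θ' y : ℝ) : ℂ) * Complex.exp (((θ y : ℝ) : ℂ) * I) =
      ((b q : ℝ) : ℂ) * Complex.exp (((θ q : ℝ) : ℂ) * I) - ((b p : ℝ) : ℂ) * Complex.exp (((θ p : ℝ) : ℂ) * I) -
        ∫ y in p..q, ((b' y : ℝ) : ℂ) * Complex.exp (((θ y : ℝ) : ℂ) * I) := by
    linear_combination h
  rw [h2, h3]
  refine (norm_sub_le _ _).trans (add_le_add ((norm_sub_le _ _).trans (le_of_eq ?_)) h1)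
  rw [norm_mul, norm_mul, IBP_norm, IBP_norm, mul_one, mul_one, Complex.norm_real, Complex.norm_real,
    Real.norm_eq_abs, Real.norm_eq_abs, add_comm]

end Pool.Agent.BEY
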